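import Pool.Agent.Helper82.IW.Goals

/-! Packet MO1 of project IW (helper82), proved by helper46: convolution with the kernel is a
trigonometric polynomial. -/

open Complex MeasureTheory Set Filter Topology
open scoped ContDiff ComplexConjugate

namespace Pool.Agent.Helper46.IW

open Pool.Agent.Helper82.IW

theorem isCompact_Q : IsCompact Q := isCompact_Icc.reProdIm isCompact_Icc

theorem integrableOn_Q {F : ℂ → ℂ} (hF : Continuous F) : IntegrableOn F Q :=
  hF.continuousOn.integrableOn_compact isCompact_Q

theorem continuous_ex (k : ℤ × ℤ) : Continuous (ex k) := by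
  unfold ex
  fun_prop

theorem continuous_conj_ex (k : ℤ × ℤ) : Continuous (fun w => conj (ex k w)) :=
  Complex.continuous_conj.comp (continuous_ex k)

theorem conj_ex (k : ℤ × ℤ) (w : ℂ) : conj (ex k w) =
    Complex.exp (((-(2 * Real.pi * ((k.1 : ℝ) * w.re + (k.2 : ℝ) * w.im)) : ℝ) : ℂ) * I) := by
  unfold ex
  rw [← Complex.exp_conj, map_mul, Complex.conj_ofReal, Complex.conj_I]
  congr 1
  push_cast
  ring

theorem MO1 (hKER : S_KER) : Pool.Agent.Helper82.IW.S_MO1 := by
  intro n
  obtain ⟨-, -, -, -, -, h6⟩ := hKER
  obtain ⟨K, hK, hk⟩ := h6 n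
  refine ⟨fun k => K k.1 * K k.2, ?_, ?_⟩
  · intro k
    refine ⟨mul_nonneg (hK _).1 (hK _).1, ?_⟩
    exact mul_le_one₀ (hK _).2 (hK _).1 (hK _).2
  · intro f hf z
    have hker : ∀ w : ℂ, (kr n (z - w) : ℂ) * f w =
        ∑ k ∈ box n, (((K k.1 * K k.2 : ℝ) : ℂ) * ex k z) * (conj (ex k w) * f w) := by
      intro w
      have h1 : (kr n (z - w) : ℂ) =
          ∑ k ∈ box n, ((K k.1 * K k.2 : ℝ) : ℂ) * ex k z * conj (ex k w) := by
        unfold kr
        rw [Complex.ofReal_mul, hk, hk, Finset.sum_mul_sum, box, Finset.sum_product]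
        apply Finset.sum_congr rfl
        intro j _
        apply Finset.sum_congr rfl
        intro l _
        rw [conj_ex]
        unfold ex
        rw [mul_assoc (((K j * K l : ℝ) : ℂ)), ← Complex.exp_add, mul_mul_mul_comm, ← Complex.exp_add,
          Complex.ofReal_mul]
        congr 1
        · push_cast
          ring
        · congr 1
          simp only [Complex.sub_re, Complex.sub_im]
          push_cast
          ring
      rw [h1, Finset.sum_mul]
      apply Finset.sum_congr rfl
      intro k _
      ring
    unfold Mo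
    simp_rw [hker]
    rw [integral_finsetSum]
    · unfold tp
      apply Finset.sum_congr rfl
      intro k _
      rw [integral_const_mul]
      ring
    · intro k _
      apply Integrable.const_mul
      exact integrableOn_Q ((continuous_conj_ex k).mul hf)

end Pool.Agent.Helper46.IW
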