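import Pool.Agent.Helper46.IW.MO1

/-! Packet MO2 of project IW (helper82), proved by helper46: self-adjointness of `Mo n`. -/

open Complex MeasureTheory Set Filter Topology
open scoped ContDiff ComplexConjugate

namespace Pool.Agent.Helper46.IW

open Pool.Agent.Helper82.IW

theorem MO2 (_hKER : S_KER) (hMO1 : S_MO1) : Pool.Agent.Helper82.IW.S_MO2 := by
  intro n f g hf hg
  obtain ⟨K, -, hM⟩ := hMO1 n
  have hcg : Continuous (fun z => conj (g z)) := Complex.continuous_conj.comp hg
  have h1 : ∀ z, conj (g z) * Mo n f z =
      ∑ k ∈ box n, ((K k : ℂ) * ∫ w in Q, conj (ex k w) * f w) * (conj (g z) * ex k z) := by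
    intro z
    rw [hM f hf z, tp, Finset.mul_sum]
    apply Finset.sum_congr rfl
    intro k _
    ring
  have h2 : ∀ z, conj (Mo n g z) * f z =
      ∑ k ∈ box n, ((K k : ℂ) * conj (∫ w in Q, conj (ex k w) * g w)) * (conj (ex k z) * f z) := by
    intro z
    rw [hM g hg z, tp, map_sum, Finset.sum_mul]
    apply Finset.sum_congr rfl
    intro k _
    rw [map_mul, map_mul, Complex.conj_ofReal]
    ring
  simp_rw [h1, h2]
  rw [integral_finsetSum, integral_finsetSum]
  · apply Finset.sum_congr rfl
    intro k _
    rw [integral_const_mul, integral_const_mul]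
    have h3 : ∫ z in Q, conj (g z) * ex k z = conj (∫ w in Q, conj (ex k w) * g w) := by
      rw [← integral_conj]
      apply integral_congr_ae
      filter_upwards with w
      rw [map_mul, Complex.conj_conj]
      ring
    rw [h3]
    ring
  · intro k _
    apply Integrable.const_mul
    exact integrableOn_Q ((continuous_conj_ex k).mul hf)
  · intro k _
    apply Integrable.const_mul
    exact integrableOn_Q (hcg.mul (continuous_ex k))

end Pool.Agent.Helper46.IW
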